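import Mathlib
import Pool.Agent.J6H94.SymbVC.MinP
import Pool.Agent.J6H94.SymbVC.Retr

/-!
# Noetherianity of the symbolic blowup algebras of the varieties of complexes

For every field `K`, all `m t n` and all `r s` with `r + s ≤ t`, the symbolic Rees algebra and the
symbolic associated graded algebra of the ideal
`𝔭_{r,s} = I_{r+1}(Y) + I_{s+1}(Z) + I_1(YZ)` of `K[Y, Z]` are Noetherian rings.
-/

namespace Pool.Agent.Results.MP_e85a6b_ag.SymbolicNoetherian

open MvPolynomial Pool.Agent.J6H94.SymbVC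

/-! ## Definitions -/

/-- The `k`-th symbolic power `I^{(k)}` of an ideal `I` of a ring `S`: the intersection, over the
minimal primes `Q` of `I`, of the contractions `I^k S_Q ∩ S`.  (If `I` is prime, its only minimal
prime is `I`, and this is `I^k S_I ∩ S`: see `symbolicPower_of_isPrime` below.) -/
noncomputable def symbolicPower {S : Type*} [CommRing S] (I : Ideal S) (k : ℕ) : Ideal S :=
  ⨅ Q : {Q : PrimeSpectrum S // Q.asIdeal ∈ I.minimalPrimes},
    ((I ^ k).map (algebraMap S (Localization.AtPrime Q.1.asIdeal))).comap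
      (algebraMap S (Localization.AtPrime Q.1.asIdeal))

lemma mem_symbolicPower {S : Type*} [CommRing S] (I : Ideal S) (k : ℕ) (g : S) :
    g ∈ symbolicPower I k ↔ ∀ Q ∈ I.minimalPrimes, ∃ w, w ∉ Q ∧ w * g ∈ I ^ k := by
  unfold symbolicPower
  rw [Ideal.mem_iInf]
  constructor
  · intro h Q hQ
    have hQp : Q.IsPrime := hQ.1.1
    have h1 := h ⟨⟨Q, hQp⟩, hQ⟩
    rw [Ideal.mem_comap, IsLocalization.algebraMap_mem_map_algebraMap_iff Q.primeCompl] at h1
    obtain ⟨w, hw, hw2⟩ := h1
    exact ⟨w, hw, hw2⟩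
  · rintro h ⟨Q, hQ⟩
    obtain ⟨w, hw, hw2⟩ := h _ hQ
    rw [Ideal.mem_comap, IsLocalization.algebraMap_mem_map_algebraMap_iff Q.asIdeal.primeCompl]
    exact ⟨w, hw, hw2⟩

/-- For a prime ideal `I` the symbolic power is `I^k S_I ∩ S`. -/
lemma symbolicPower_of_isPrime {S : Type*} [CommRing S] (I : Ideal S) [hI : I.IsPrime] (k : ℕ) :
    symbolicPower I k = ((I ^ k).map (algebraMap S (Localization.AtPrime I))).comap
      (algebraMap S (Localization.AtPrime I)) := by
  ext g
  rw [mem_symbolicPower, Ideal.mem_comap,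
    IsLocalization.algebraMap_mem_map_algebraMap_iff I.primeCompl, Ideal.minimalPrimes_eq_subsingleton_self]
  constructor
  · intro h
    exact h I rfl
  · rintro h Q rfl
    exact h

lemma symbolicPower_zero {S : Type*} [CommRing S] (I : Ideal S) : symbolicPower I 0 = ⊤ := by
  rw [Ideal.eq_top_iff_one, mem_symbolicPower]
  intro Q hQ
  exact ⟨1, (Ideal.ne_top_iff_one _).mp hQ.1.1.ne_top, by simp⟩

lemma symbolicPower_mul_mem {S : Type*} [CommRing S] (I : Ideal S) {i j : ℕ} {x y : S}
    (hx : x ∈ symbolicPower I i) (hy : y ∈ symbolicPower I j) :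
    x * y ∈ symbolicPower I (i + j) := by
  rw [mem_symbolicPower] at *
  intro Q hQ
  obtain ⟨v, hv, hv2⟩ := hx Q hQ
  obtain ⟨w, hw, hw2⟩ := hy Q hQ
  have hQp : Q.IsPrime := hQ.1.1
  refine ⟨v * w, fun h => (hQp.mem_or_mem h).elim hv hw, ?_⟩
  have : v * w * (x * y) = (v * x) * (w * y) := by ring
  rw [this, pow_add]
  exact Ideal.mul_mem_mul hv2 hw2

/-- The symbolic Rees algebra `R^S(I) = ⊕_{k ≥ 0} I^{(k)}`, realized as the algebra of all
polynomials `∑ a_k X^k` over `S` with `a_k ∈ I^{(k)}` for all `k`. -/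
noncomputable def symbolicRees {S : Type*} [CommRing S] (I : Ideal S) :
    Subalgebra S (Polynomial S) where
  carrier := {f | ∀ k, f.coeff k ∈ symbolicPower I k}
  mul_mem' := by
    intro f g hf hg k
    rw [Polynomial.coeff_mul]
    apply Ideal.sum_mem
    rintro ⟨i, j⟩ hij
    have hij' : i + j = k := by simpa using hij
    subst hij'
    exact symbolicPower_mul_mem I (hf i) (hg j)
  add_mem' := by
    intro f g hf hg k
    rw [Polynomial.coeff_add]
    exact Ideal.add_mem _ (hf k) (hg k)
  algebraMap_mem' := by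
    intro r k
    rw [Polynomial.algebraMap_apply, Polynomial.coeff_C]
    split_ifs with hk
    · subst hk
      rw [symbolicPower_zero]; trivial
    · exact Ideal.zero_mem _

/-- The ideal `⊕_{k ≥ 0} I^{(k+1)}` of the symbolic Rees algebra `⊕_{k ≥ 0} I^{(k)}`. -/
noncomputable def symbolicReesShift {S : Type*} [CommRing S] (I : Ideal S) :
    Ideal (symbolicRees I) where
  carrier := {f | ∀ k, (f : Polynomial S).coeff k ∈ symbolicPower I (k + 1)}
  zero_mem' := fun k => by
    change (0 : Polynomial S).coeff k ∈ _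
    rw [Polynomial.coeff_zero]
    exact Ideal.zero_mem _
  add_mem' := by
    intro f g hf hg k
    change ((f : Polynomial S) + (g : Polynomial S)).coeff k ∈ _
    rw [Polynomial.coeff_add]
    exact Ideal.add_mem _ (hf k) (hg k)
  smul_mem' := by
    intro c f hf k
    change ((c : Polynomial S) * (f : Polynomial S)).coeff k ∈ _
    rw [Polynomial.coeff_mul]
    apply Ideal.sum_mem
    rintro ⟨i, j⟩ hij
    have hij' : i + j = k := by simpa using hij
    subst hij'
    rw [add_assoc]
    exact symbolicPower_mul_mem I (c.2 i) (hf j)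

/-- The symbolic associated graded algebra `G^S(I) = ⊕_{k ≥ 0} I^{(k)} / I^{(k+1)}`, realized as the
quotient ring of `R^S(I) = ⊕ I^{(k)}` by its ideal `⊕ I^{(k+1)}`. -/
abbrev symbolicGr {S : Type*} [CommRing S] (I : Ideal S) : Type _ :=
  symbolicRees I ⧸ symbolicReesShift I

/-- The polynomial ring `K[Y, Z]` in the entries of a generic `m × t` matrix `Y` and a generic
`t × n` matrix `Z`. -/
abbrev PolyRing (K : Type*) [CommRing K] (m t n : ℕ) : Type _ :=
  MvPolynomial ((Fin m × Fin t) ⊕ (Fin t × Fin n)) K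

/-- The generic matrix `Y`. -/
noncomputable def Y (K : Type*) [CommRing K] (m t n : ℕ) :
    Matrix (Fin m) (Fin t) (PolyRing K m t n) := fun i j => X (Sum.inl (i, j))

/-- The generic matrix `Z`. -/
noncomputable def Z (K : Type*) [CommRing K] (m t n : ℕ) :
    Matrix (Fin t) (Fin n) (PolyRing K m t n) := fun j k => X (Sum.inr (j, k))

/-- The ideal `I_j(M)` generated by the `j × j` minors of a matrix `M` (the determinants
`det (M_{e a, f b})_{a, b < j}`, where choices of rows `e` or columns `f` with a repetition give `0`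
and reorderings change the sign only; in particular `I_j(M) = 0` if `j` exceeds a side length). -/
def minorIdeal {S : Type*} [CommRing S] {p q : ℕ} (j : ℕ) (M : Matrix (Fin p) (Fin q) S) :
    Ideal S :=
  Ideal.span {x | ∃ (e : Fin j → Fin p) (f : Fin j → Fin q), x = (M.submatrix e f).det}

/-- The ideal `𝔭_{r,s} = I_{r+1}(Y) + I_{s+1}(Z) + I_1(YZ)` of the variety of complexes. -/
noncomputable def complexIdeal (K : Type*) [CommRing K] (m t n r s : ℕ) : Ideal (PolyRing K m t n) :=
  minorIdeal (r + 1) (Y K m t n) + minorIdeal (s + 1) (Z K m t n) +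
    minorIdeal 1 (Y K m t n * Z K m t n)

/-! ## Proof -/

section General

variable {S S' : Type*} [CommRing S] [CommRing S']

/-- recognition of symbolic powers -/
lemma symbolicPower_eq {I : Ideal S} {a : ℕ → Ideal S} (hprime : (a 1).IsPrime) (hI : I ≤ a 1)
    (hmin : ∀ P : Ideal S, P.IsPrime → I ≤ P → a 1 ≤ P) (hpow : ∀ k, I ^ k ≤ a k)
    (hsat : ∀ k w g, w ∉ a 1 → w * g ∈ a k → g ∈ a k)
    (hloc : ∀ k g, g ∈ a k → ∃ w, w ∉ a 1 ∧ w * g ∈ I ^ k) (k : ℕ) :
    symbolicPower I k = a k := by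
  have h1 : a 1 ∈ I.minimalPrimes := ⟨⟨hprime, hI⟩, fun P hP _ => hmin P hP.1 hP.2⟩
  ext g
  rw [mem_symbolicPower]
  constructor
  · intro h
    obtain ⟨w, hw, hw2⟩ := h _ h1
    exact hsat k w g hw (hpow k hw2)
  · intro h Q hQ
    have h2 : Q = a 1 := le_antisymm (hQ.2 ⟨hprime, hI⟩ (hmin Q hQ.1.1 hQ.1.2))
      (hmin Q hQ.1.1 hQ.1.2)
    subst h2
    exact hloc k g h

/-- transport of the Noetherian property -/
lemma noeth_transport (e : S' ≃+* S) {I : Ideal S} {h : ℕ} {a : ℕ → Ideal S} (F : SymbFilt h a)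
    (hI : I ≤ a 1) (hmin : ∀ P : Ideal S, P.IsPrime → I ≤ P → a 1 ≤ P)
    (hpow : ∀ k, I ^ k ≤ a k)
    (hloc : ∀ k g, g ∈ a k → ∃ w, w ∉ a 1 ∧ w * g ∈ I ^ k)
    (hN : IsNoetherianRing F.rees) {I' : Ideal S'} (hI' : I'.map (e : S' →+* S) = I) :
    IsNoetherianRing (symbolicRees I') := by
  have hI'' : I' = I.comap (e : S' →+* S) := by
    rw [← hI']
    exact (Ideal.comap_map_of_bijective (e : S' →+* S) e.bijective).symm
  have hIp : ∀ k, I' ^ k = (I ^ k).comap (e : S' →+* S) := by
    intro k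
    rw [← hI', ← Ideal.map_pow]
    exact (Ideal.comap_map_of_bijective (e : S' →+* S) e.bijective).symm
  have hmem : ∀ (J : Ideal S) (x : S), e.symm x ∈ J.comap (e : S' →+* S) ↔ x ∈ J := by
    intro J x
    rw [Ideal.mem_comap]
    change e (e.symm x) ∈ J ↔ _
    rw [RingEquiv.apply_symm_apply]
  have hsp : ∀ k, symbolicPower I' k = (a k).comap (e : S' →+* S) := by
    have hp : (a 1).IsPrime := F.prime
    refine symbolicPower_eq (a := fun k => (a k).comap (e : S' →+* S)) ?_ ?_ ?_ ?_ ?_ ?_
    · exact Ideal.comap_isPrime _ _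
    · rw [hI'']
      exact Ideal.comap_mono hI
    · intro P hP hIP x hx
      have hP' : (P.comap (e.symm : S →+* S')).IsPrime := Ideal.comap_isPrime _ _
      have h1 : I ≤ P.comap (e.symm : S →+* S') := by
        intro y hy
        rw [Ideal.mem_comap]
        apply hIP
        rw [hI'']
        exact (hmem I y).mpr hy
      have h2 := hmin _ hP' h1 hx
      rw [Ideal.mem_comap] at h2
      change e.symm (e x) ∈ P at h2
      rwa [RingEquiv.symm_apply_apply] at h2
    · intro k
      rw [hIp]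
      exact Ideal.comap_mono (hpow k)
    · intro k w g hw hwg
      rw [Ideal.mem_comap] at hw hwg ⊢
      rw [map_mul] at hwg
      exact F.sat hw hwg
    · intro k g hg
      obtain ⟨w, hw, hw2⟩ := hloc k (e g) hg
      refine ⟨e.symm w, ?_, ?_⟩
      · rw [hmem]; exact hw
      · rw [hIp, Ideal.mem_comap, map_mul]
        change e (e.symm w) * e g ∈ _
        rw [RingEquiv.apply_symm_apply]
        exact hw2
  let φ : F.rees →+* symbolicRees I' :=
    { toFun := fun x => ⟨Polynomial.map (e.symm : S →+* S') x.1, by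
        intro k
        rw [Polynomial.coeff_map, hsp]
        exact (hmem (a k) _).mpr (x.2 k)⟩
      map_one' := by
        apply Subtype.ext
        exact Polynomial.map_one _
      map_mul' := by
        intro x y
        apply Subtype.ext
        exact Polynomial.map_mul _
      map_zero' := by
        apply Subtype.ext
        exact Polynomial.map_zero _
      map_add' := by
        intro x y
        apply Subtype.ext
        exact Polynomial.map_add _ }
  refine isNoetherianRing_of_surjective F.rees (symbolicRees I') φ ?_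
  rintro ⟨x, hx⟩
  refine ⟨⟨Polynomial.map (e : S' →+* S) x, ?_⟩, ?_⟩
  · intro k
    have := hx k
    rw [hsp, Ideal.mem_comap] at this
    rw [Polynomial.coeff_map]
    exact this
  · apply Subtype.ext
    change Polynomial.map _ (Polynomial.map _ x) = x
    rw [Polynomial.map_map]
    have h1 : (e.symm : S →+* S').comp (e : S' →+* S) = RingHom.id _ := by
      ext y
      simp
    rw [h1, Polynomial.map_id]

end General

section Minors

variable {S S' ρ γ ρ' γ' : Type*} [CommRing S] [CommRing S']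

lemma minors_map (φ : S →+* S') (k : ℕ) (M : Matrix ρ γ S) :
    (minors k M).map φ = minors k (M.map φ) := by
  unfold minors
  rw [Ideal.map_span, ← Set.range_comp]
  congr 1
  apply congrArg
  funext p
  change φ (M.submatrix p.1 p.2).det = _
  rw [map_det, Matrix.submatrix_map]

lemma minors_submatrix (k : ℕ) (M : Matrix ρ γ S) (e : ρ' ≃ ρ) (f : γ' ≃ γ) :
    minors k (M.submatrix e f) = minors k M := by
  unfold minors
  congr 1
  ext x
  constructor
  · rintro ⟨p, rfl⟩
    exact ⟨(e ∘ p.1, f ∘ p.2), rfl⟩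
  · rintro ⟨p, rfl⟩
    refine ⟨(e.symm ∘ p.1, f.symm ∘ p.2), ?_⟩
    simp only [Matrix.submatrix_submatrix]
    congr 2
    · ext a; simp
    · ext a; simp

lemma entries_map (φ : S →+* S') (M : Matrix ρ γ S) :
    (entries M).map φ = entries (M.map φ) := by
  unfold entries
  rw [Ideal.map_span, ← Set.range_comp]
  rfl

lemma entries_submatrix (M : Matrix ρ γ S) (e : ρ' ≃ ρ) (f : γ' ≃ γ) :
    entries (M.submatrix e f) = entries M := by
  unfold entries
  congr 1
  ext x
  constructor
  · rintro ⟨p, rfl⟩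
    exact ⟨(e p.1, f p.2), rfl⟩
  · rintro ⟨p, rfl⟩
    refine ⟨(e.symm p.1, f.symm p.2), ?_⟩
    simp

lemma minors_bot_rows [Fintype ρ] (k : ℕ) (M : Matrix ρ γ S) (h : Fintype.card ρ < k) :
    minors k M = ⊥ := by
  unfold minors
  rw [Ideal.span_eq_bot]
  rintro _ ⟨p, rfl⟩
  obtain ⟨i, j, hij, hp⟩ := Fintype.exists_ne_map_eq_of_card_lt p.1 (by simpa using h)
  apply Matrix.det_zero_of_row_eq hij
  funext a
  simp [hp]

lemma minors_bot_cols [Fintype γ] (k : ℕ) (M : Matrix ρ γ S) (h : Fintype.card γ < k) :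
    minors k M = ⊥ := by
  unfold minors
  rw [Ideal.span_eq_bot]
  rintro _ ⟨p, rfl⟩
  obtain ⟨i, j, hij, hp⟩ := Fintype.exists_ne_map_eq_of_card_lt p.2 (by simpa using h)
  apply Matrix.det_zero_of_column_eq hij
  intro a
  simp [hp]

end Minors

section Reindex

variable (K : Type*) [Field K] {α β γ α' β' γ' : Type*} [Fintype β] [Fintype β']

lemma cpx_map (e1 : α ≃ α') (e2 : β ≃ β') (e3 : γ ≃ γ') (r s : ℕ) :
    (cpx K α β γ r s).map
      ((renameEquiv K ((e1.prodCongr e2).sumCongr (e2.prodCongr e3))).toRingEquiv :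
        MvPolynomial ((α × β) ⊕ (β × γ)) K →+* MvPolynomial ((α' × β') ⊕ (β' × γ')) K) =
      cpx K α' β' γ' r s := by
  set φ : MvPolynomial ((α × β) ⊕ (β × γ)) K →+* MvPolynomial ((α' × β') ⊕ (β' × γ')) K :=
    ((renameEquiv K ((e1.prodCongr e2).sumCongr (e2.prodCongr e3))).toRingEquiv :
        MvPolynomial ((α × β) ⊕ (β × γ)) K →+* MvPolynomial ((α' × β') ⊕ (β' × γ')) K) with hφ
  have hX : ∀ v, φ (X v) = X (((e1.prodCongr e2).sumCongr (e2.prodCongr e3)) v) := by
    intro v
    change rename _ (X v) = _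
    rw [rename_X]
  have hY : (matY K α β γ).map φ = (matY K α' β' γ').submatrix e1 e2 := by
    ext i j : 1
    change φ (X _) = X _
    rw [hX]
    rfl
  have hZ : (matZ K α β γ).map φ = (matZ K α' β' γ').submatrix e2 e3 := by
    ext i j : 1
    change φ (X _) = X _
    rw [hX]
    rfl
  unfold cpx
  rw [Ideal.map_sup, Ideal.map_sup, minors_map, minors_map, entries_map, Matrix.map_mul, hY, hZ,
    Matrix.submatrix_mul_equiv, minors_submatrix, minors_submatrix, entries_submatrix]

end Reindex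

lemma minorIdeal_eq {S : Type*} [CommRing S] {p q : ℕ} (j : ℕ) (M : Matrix (Fin p) (Fin q) S) :
    minorIdeal j M = minors j M := by
  unfold minorIdeal minors
  congr 1
  ext x
  constructor
  · rintro ⟨e, f, rfl⟩
    exact ⟨(e, f), rfl⟩
  · rintro ⟨p, rfl⟩
    exact ⟨p.1, p.2, rfl⟩

lemma minorIdeal_one {S : Type*} [CommRing S] {p q : ℕ} (M : Matrix (Fin p) (Fin q) S) :
    minorIdeal 1 M = entries M := by
  unfold minorIdeal entries
  congr 1
  ext x
  constructor
  · rintro ⟨e, f, rfl⟩
    refine ⟨(e 0, f 0), ?_⟩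
    simp
  · rintro ⟨p, rfl⟩
    refine ⟨fun _ => p.1, fun _ => p.2, ?_⟩
    simp

lemma complexIdeal_eq (K : Type*) [Field K] (m t n r s : ℕ) :
    complexIdeal K m t n r s = cpx K (Fin m) (Fin t) (Fin n) r s := by
  unfold complexIdeal cpx
  rw [minorIdeal_eq, minorIdeal_eq, minorIdeal_one, Submodule.add_eq_sup, Submodule.add_eq_sup]
  rfl

lemma cpx_min (K : Type*) [Field K] (m t n r s : ℕ) :
    cpx K (Fin m) (Fin t) (Fin n) r s = cpx K (Fin m) (Fin t) (Fin n) (min r m) (min s n) := by
  unfold cpx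
  congr 2
  · rcases le_total r m with h | h
    · rw [min_eq_left h]
    · rw [min_eq_right h, minors_bot_rows _ _ (by simp; omega), minors_bot_rows _ _ (by simp)]
  · rcases le_total s n with h | h
    · rw [min_eq_left h]
    · rw [min_eq_right h, minors_bot_cols _ _ (by simp; omega), minors_bot_cols _ _ (by simp)]

lemma rees_noeth (K : Type*) [Field K] (m t n r s : ℕ) (h : r + s ≤ t) :
    IsNoetherianRing (symbolicRees (complexIdeal K m t n r s)) := by
  rw [complexIdeal_eq, cpx_min]
  set r' := min r m with hr'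
  set s' := min s n with hs'
  obtain ⟨a, ha⟩ : ∃ a, m = r' + a := ⟨m - r', by omega⟩
  obtain ⟨n', hn'⟩ : ∃ n', n = n' + s' := ⟨n - s', by omega⟩
  obtain ⟨q, hq⟩ : ∃ q, t = r' + (q + s') := ⟨t - r' - s', by omega⟩
  let e1 : Fin m ≃ Fin r' ⊕ Fin a := (finCongr ha).trans finSumFinEquiv.symm
  let e2 : Fin t ≃ Fin r' ⊕ (Fin q ⊕ Fin s') := (finCongr hq).trans
    (finSumFinEquiv.symm.trans ((Equiv.refl _).sumCongr finSumFinEquiv.symm))
  let e3 : Fin n ≃ Fin n' ⊕ Fin s' := (finCongr hn').trans finSumFinEquiv.symm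
  have F := fil_symbFilt (R := Fin r') (A := Fin a) (Q := Fin q) (T := Fin s') (N := Fin n') K
  have hle := cpx_le_fil (R := Fin r') (A := Fin a) (Q := Fin q) (T := Fin s') (N := Fin n') K
  have hN := noeth_all (R := Fin r') (A := Fin a) (Q := Fin q) (T := Fin s') (N := Fin n') K
  have hmap := cpx_map K e1 e2 e3 (Fintype.card (Fin r')) (Fintype.card (Fin s'))
  rw [Fintype.card_fin, Fintype.card_fin] at hmap
  have hle' := hle
  rw [Fintype.card_fin, Fintype.card_fin] at hle'
  refine noeth_transport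
    (renameEquiv K ((e1.prodCongr e2).sumCongr (e2.prodCongr e3))).toRingEquiv F
    (I := cpx K (Fin r' ⊕ Fin a) (Fin r' ⊕ (Fin q ⊕ Fin s')) (Fin n' ⊕ Fin s') r' s')
    hle' ?_ ?_ ?_ hN hmap
  · intro P hP hIP
    apply fil_le_prime K P
    rw [Fintype.card_fin, Fintype.card_fin]
    exact hIP
  · intro k
    exact (Ideal.pow_right_mono hle' k).trans (fil_pow_le K k)
  · intro k g hg
    obtain ⟨M, hM⟩ := fil_loc K (𝔞 := cpx K (Fin r' ⊕ Fin a) (Fin r' ⊕ (Fin q ⊕ Fin s'))
      (Fin n' ⊕ Fin s') r' s') (fun v hv => by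
        have := num_mem_cpx K v hv
        rw [Fintype.card_fin, Fintype.card_fin] at this
        exact this) hg
    exact ⟨u0 K ^ M, fun hmem => u0_not_mem K (F.prime.mem_of_pow_mem M hmem), hM⟩

/-- For every field `K`, all `m, t, n` and all `r, s ≥ 0` with `r + s ≤ t`, the
symbolic Rees algebra `R^S(𝔭_{r,s})` and the symbolic associated graded algebra `G^S(𝔭_{r,s})` of
the ideal `𝔭_{r,s} = I_{r+1}(Y) + I_{s+1}(Z) + I_1(YZ)` of the variety of complexes are
Noetherian. -/
theorem result (K : Type*) [Field K] (m t n r s : ℕ) (hrs : r + s ≤ t) :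
    IsNoetherianRing (symbolicRees (complexIdeal K m t n r s)) ∧
      IsNoetherianRing (symbolicGr (complexIdeal K m t n r s)) := by
  have h1 := rees_noeth K m t n r s hrs
  refine ⟨h1, ?_⟩
  exact Ideal.Quotient.isNoetherianRing _

end Pool.Agent.Results.MP_e85a6b_ag.SymbolicNoetherian
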